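import Pool.Agent.H6.FC.Targets

/-!
# MP_7500ea_al, board cfp_modules: rows CYC and AGM
-/

open scoped Classical ComplexConjugate

namespace FI

open AMc AMt

theorem pf_CYC : T_CYC := by
  intro α X hX hne
  have : Finite X := hX.to_subtype
  have : Fintype X := Fintype.ofFinite X
  obtain ⟨n, hn⟩ : ∃ n, n = X.ncard := ⟨_, rfl⟩
  have hn0 : 0 < n := hn ▸ (Set.ncard_pos hX).2 hne
  have : NeZero n := ⟨hn0.ne'⟩
  have hcard : Nat.card X = n := by rw [hn, Nat.card_coe_set_eq]
  obtain ⟨e, -⟩ : ∃ e : Fin n ≃ X, True := ⟨(Finite.equivFinOfCardEq hcard).symm, trivial⟩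
  let s : α → α := fun x => if hx : x ∈ X then (e (e.symm ⟨x, hx⟩ + 1) : α) else x
  have hs : ∀ k : Fin n, s (e k) = e (k + 1) := by
    intro k
    have hx : ((e k : X) : α) ∈ X := (e k).2
    simp only [s, dif_pos hx, Subtype.coe_eta, Equiv.symm_apply_apply]
  have hof : ∀ j : ℕ, Fin.ofNat n (j + 1) = Fin.ofNat n j + 1 := by
    intro j
    apply Fin.ext
    simp [Fin.ofNat, Fin.val_add, Nat.add_mod]
  have hit : ∀ (j : ℕ) (k : Fin n), s^[j] (e k) = e (k + Fin.ofNat n j) := by
    intro j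
    induction j with
    | zero => intro k; simp
    | succ j ih =>
      intro k
      rw [Function.iterate_succ_apply', ih, hs, hof, add_assoc]
  have hsurj : ∀ x ∈ X, ∃ k : Fin n, ((e k : X) : α) = x := fun x hx =>
    ⟨e.symm ⟨x, hx⟩, by simp⟩
  refine ⟨s, ⟨?_, ?_, ?_⟩, ?_⟩
  · intro x hx
    obtain ⟨k, rfl⟩ := hsurj x hx
    rw [hs]
    exact (e (k + 1)).2
  · intro x hx y hy hxy
    obtain ⟨k, rfl⟩ := hsurj x hx
    obtain ⟨l, rfl⟩ := hsurj y hy
    rw [hs, hs] at hxy
    have h1 : e (k + 1) = e (l + 1) := Subtype.ext hxy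
    have h2 := add_right_cancel (e.injective h1)
    rw [h2]
  · intro y hy
    obtain ⟨k, rfl⟩ := hsurj y hy
    exact ⟨e (k - 1), (e (k - 1)).2, by rw [hs, sub_add_cancel]⟩
  · intro x hx f
    obtain ⟨k, rfl⟩ := hsurj x hx
    rw [← hn]
    have h1 : ∏ j ∈ Finset.range n, f (s^[j] (e k)) = ∏ i : Fin n, f (e (k + i)) := by
      rw [Finset.prod_range]
      refine Finset.prod_congr rfl fun i _ => ?_
      rw [hit, Fin.ofNat_val_eq_self]
    have h2 : ∏ i : Fin n, f (e (k + i)) = ∏ i : Fin n, f (e i) :=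
      Equiv.prod_comp (Equiv.addLeft k) (fun i : Fin n => f (e i))
    have h3 : ∏ i : Fin n, f (e i) = ∏ y : X, f y :=
      Equiv.prod_comp e (fun y : X => f y)
    rw [h1, h2, h3, ← finprod_eq_prod_of_fintype, finprod_set_coe_eq_finprod_mem (s := X) (f := f)]

theorem pf_AGM : T_AGM := by
  intro J α _ A h d n g w hn hg hA hb hd hgd hw
  set P : Set (J → α) := {c : J → α | ∀ i, c i ∈ A i} with hPdef
  have hP : P.Finite := by
    have h1 : P = Set.pi Set.univ A := by
      ext c
      simp [hPdef, Set.mem_pi]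
    rw [h1]
    exact Set.Finite.pi' hA |>.subset (by intro c hc; exact fun i => hc i trivial)
  let H : (J → α) → J → α := fun c i => h i (c i)
  have hH : Set.BijOn H P P := by
    refine ⟨?_, ?_, ?_⟩
    · intro c hc i
      exact (hb i).mapsTo (hc i)
    · intro c hc c' hc' he
      funext i
      exact (hb i).injOn (hc i) (hc' i) (congrFun he i)
    · intro c hc
      choose b hb1 hb2 using fun i => (hb i).surjOn (hc i)
      exact ⟨b, hb1, funext hb2⟩
  have hHj : ∀ j, Set.BijOn (H^[j]) P P := fun j => hH.iterate j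
  have hwj : ∀ j, ∀ c ∈ P, w (H^[j] c) = w c := by
    intro j
    induction j with
    | zero => intro c _; rfl
    | succ j ih =>
      intro c hc
      rw [Function.iterate_succ_apply']
      exact ((hw _ ((hHj j).mapsTo hc)).2).trans (ih c hc)
  have hHi : ∀ j c i, (H^[j] c) i = (h i)^[j] (c i) := by
    intro j
    induction j with
    | zero => intro c i; rfl
    | succ j ih =>
      intro c i
      rw [Function.iterate_succ_apply', Function.iterate_succ_apply', ← ih c i]
  have hmem : ∀ j i, ∀ x ∈ A i, (h i)^[j] x ∈ A i := fun j i x hx =>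
    ((hb i).iterate j).mapsTo hx
  set R : ℝ := ∑ᶠ c ∈ P, w c * ∏ i, d i (c i) with hR
  have h1 : ∀ j, R = ∑ᶠ c ∈ P, w c * ∏ i, d i ((h i)^[j] (c i)) := by
    intro j
    rw [hR]
    symm
    refine finsum_mem_eq_of_bijOn (H^[j]) (hHj j) fun c hc => ?_
    rw [hwj j c hc]
    refine congrArg _ (Finset.prod_congr rfl fun i _ => ?_)
    rw [hHi]
  have h2 : (n : ℝ) * R =
      ∑ᶠ c ∈ P, w c * ∑ j ∈ Finset.range n, ∏ i, d i ((h i)^[j] (c i)) := by
    have h3 : (n : ℝ) * R = ∑ j ∈ Finset.range n, R := by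
      rw [Finset.sum_const, Finset.card_range, nsmul_eq_mul]
    rw [h3, Finset.sum_congr rfl fun j _ => h1 j]
    simp_rw [finsum_mem_eq_finite_toFinset_sum _ hP]
    rw [Finset.sum_comm]
    refine Finset.sum_congr rfl fun c _ => ?_
    rw [Finset.mul_sum]
  have hn0 : (0 : ℝ) < n := by exact_mod_cast hn
  have h4 : ∀ c ∈ P, (n : ℝ) * g ^ Fintype.card J ≤
      ∑ j ∈ Finset.range n, ∏ i, d i ((h i)^[j] (c i)) := by
    intro c hc
    set y : ℕ → ℝ := fun j => ∏ i, d i ((h i)^[j] (c i)) with hy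
    have hy0 : ∀ j, 0 ≤ y j := fun j =>
      Finset.prod_nonneg fun i _ => (hd i _ (hmem j i _ (hc i))).le
    have hprod : (g ^ Fintype.card J) ^ n ≤ ∏ j ∈ Finset.range n, y j := by
      have h5 : ∏ j ∈ Finset.range n, y j =
          ∏ i, ∏ j ∈ Finset.range n, d i ((h i)^[j] (c i)) := Finset.prod_comm
      rw [h5, ← pow_mul, mul_comm, pow_mul, Fintype.card, ← Finset.prod_const]
      exact Finset.prod_le_prod (fun i _ => pow_nonneg hg n) fun i _ => hgd i _ (hc i)
    have h6 := Real.geom_mean_le_arith_mean (Finset.range n) (fun _ => (1 : ℝ)) y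
      (fun _ _ => zero_le_one) (by simpa using (show 0 < n by omega)) (fun j _ => hy0 j)
    simp only [Real.rpow_one, Finset.sum_const, Finset.card_range, nsmul_eq_mul, mul_one,
      one_mul] at h6
    have h7 : g ^ Fintype.card J ≤ (∏ j ∈ Finset.range n, y j) ^ ((n : ℝ)⁻¹) := by
      have h8 := Real.pow_rpow_inv_natCast (pow_nonneg hg (Fintype.card J))
        (show n ≠ 0 by omega)
      calc g ^ Fintype.card J = ((g ^ Fintype.card J) ^ n) ^ ((n : ℝ)⁻¹) := h8.symm
        _ ≤ _ := Real.rpow_le_rpow (pow_nonneg (pow_nonneg hg _) _) hprod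
          (inv_nonneg.2 hn0.le)
    have h9 := h7.trans h6
    rw [le_div_iff₀ hn0] at h9
    linarith
  have h10 : (n : ℝ) * (g ^ Fintype.card J * ∑ᶠ c ∈ P, w c) ≤ n * R := by
    rw [h2]
    simp_rw [finsum_mem_eq_finite_toFinset_sum _ hP]
    rw [Finset.mul_sum, Finset.mul_sum]
    refine Finset.sum_le_sum fun c hc => ?_
    have hc' : c ∈ P := hP.mem_toFinset.1 hc
    have h11 := mul_le_mul_of_nonneg_left (h4 c hc') (hw c hc').1
    linarith
  exact le_of_mul_le_mul_left h10 hn0

end FI
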