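import Pool.Agent.H6.FC.Targets
import Pool.Agent.H63.FI.GIS

/-!
# MP_7500ea_al, board cfp_modules: row GIG (multiplication by an extendible character; adapted
from the proof of GIS by helper63)
-/

open scoped Classical ComplexConjugate

namespace FI

open AMc AMt Pool.Agent.H63.FI

theorem pf_GIG : T_GIG := by
  intro Γ _ _ M U hNI ψ hψ hψinv τ hτ hφI
  have hMU : M ≤ U := hNI.1
  have hn : ∀ u ∈ U, ∀ g ∈ M, u * g * u⁻¹ ∈ M := hNI.2
  obtain ⟨fs, e, hmem, he, hdec, hsq⟩ := decomp hMU hn hψ hψinv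
  have hψ0 := (FI.Lib.lS1 Γ M ψ hψ).1
  have hM0 : ((Nat.card M : ℕ) : ℂ) ≠ 0 := by exact_mod_cast (Nat.card_pos (α := M)).ne'
  have hU0 : ((Nat.card U : ℕ) : ℂ) ≠ 0 := by exact_mod_cast (Nat.card_pos (α := U)).ne'
  set φ : Γ → ℂ := fun g => ψ g * τ g with hφ
  have hφ0 : ∀ g, g ∉ M → φ g = 0 := fun g hg => by
    change ψ g * τ g = 0
    rw [hψ0 g hg, zero_mul]
  have hφφ : ∑ g, φ g * conj (φ g) = Nat.card M := by
    rw [FI.Lib.lS2 Γ M φ φ hφI hφI, if_pos rfl]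
  have hτcl : ∀ u ∈ U, ∀ g ∈ U, τ (u * g * u⁻¹) = τ g := by
    intro u hu g hg
    exact ((FI.Lib.lA3 U).2.1 _ hτ).1 ⟨u, hu⟩ ⟨g, hg⟩
  have hd0 : τ 1 ≠ 0 := by
    obtain ⟨d', hd1, hd2⟩ := (FI.Lib.lS1 Γ M φ hφI).2.2.1
    intro h0
    have h1 : φ 1 = 0 := by
      change ψ 1 * τ 1 = 0
      rw [h0, mul_zero]
    rw [h1] at hd2
    have : d' = 0 := by exact_mod_cast hd2.symm
    omega
  set F : (Γ → ℂ) → (Γ → ℂ) := fun χ g => χ g * τ g with hF
  have hχU : ∀ χ ∈ fs, χ ∈ IrrS U := fun χ hχ => ((hmem χ).1 hχ).1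
  have hF0 : ∀ χ ∈ fs, ∀ g, g ∉ U → F χ g = 0 := by
    intro χ hχ g hg
    change χ g * τ g = 0
    rw [(FI.Lib.lS1 Γ U χ (hχU χ hχ)).1 g hg, zero_mul]
  have hFch : ∀ χ ∈ fs, IsChar U (fun u => F χ u) := by
    intro χ hχ
    exact FI.Lib.lA4.1 U _ _ (FI.Lib.lS1 Γ U χ (hχU χ hχ)).2.2.2.2.1 hτ
  have hex : ∀ χ χ', ∃ k : ℕ, χ ∈ fs → χ' ∈ fs →
      ∑ g, F χ g * conj (F χ' g) = k * (Nat.card U : ℂ) := by
    intro χ χ'
    by_cases h : χ ∈ fs
    · by_cases h' : χ' ∈ fs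
      · obtain ⟨k, hk⟩ := inner_sub U (F χ) (F χ') (hF0 χ h) (hFch χ h) (hFch χ' h')
        exact ⟨k, fun _ _ => hk⟩
      · exact ⟨0, fun _ h2 => absurd h2 h'⟩
    · exact ⟨0, fun h2 => absurd h2 h⟩
  choose m hm using hex
  have hmpos : ∀ χ ∈ fs, 0 < m χ χ := by
    intro χ hχ
    rw [Nat.pos_iff_ne_zero]
    intro h0
    have h1 := hm χ χ hχ hχ
    rw [h0, Nat.cast_zero, zero_mul] at h1
    have h2 : ∑ g, F χ g * conj (F χ g) = ((∑ g, Complex.normSq (F χ g) : ℝ) : ℂ) := by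
      push_cast
      exact Finset.sum_congr rfl fun g _ => Complex.mul_conj _
    rw [h2] at h1
    have h3 : ∑ g, Complex.normSq (F χ g) = 0 := by exact_mod_cast h1
    rw [Finset.sum_eq_zero_iff_of_nonneg (fun g _ => Complex.normSq_nonneg _)] at h3
    have h4 : F χ 1 = 0 := Complex.normSq_eq_zero.1 (h3 1 (Finset.mem_univ _))
    obtain ⟨d1, hd1, hd2⟩ := (FI.Lib.lS1 Γ U χ (hχU χ hχ)).2.2.1
    have h5 : χ 1 * τ 1 = 0 := h4
    rw [hd2] at h5
    rcases mul_eq_zero.1 h5 with h6 | h6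
    · have : d1 = 0 := by exact_mod_cast h6
      omega
    · exact hd0 h6
  have hcard : (M.relIndex U : ℂ) * Nat.card M = Nat.card U := by
    rw [← Subgroup.card_mul_index (M.subgroupOf U)]
    have h1 : Nat.card (M.subgroupOf U) = Nat.card M :=
      Nat.card_congr (Subgroup.subgroupOfEquivOfLe hMU).toEquiv
    rw [h1, Subgroup.relIndex]
    push_cast
    ring
  have hdecF : ∀ g, (M.relIndex U : ℂ) * φ g = ∑ χ ∈ fs, (e χ : ℂ) * F χ g := by
    intro g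
    change (M.relIndex U : ℂ) * (ψ g * τ g) = ∑ χ ∈ fs, (e χ : ℂ) * (χ g * τ g)
    rw [← mul_assoc, hdec, Finset.sum_mul]
    exact Finset.sum_congr rfl fun χ _ => by ring
  have hkey : ∑ χ ∈ fs, ∑ χ' ∈ fs, e χ * e χ' * m χ χ' = ∑ χ ∈ fs, e χ * e χ := by
    rw [hsq]
    have h1 : ∑ g, ((M.relIndex U : ℂ) * φ g) * conj ((M.relIndex U : ℂ) * φ g) =
        (M.relIndex U : ℂ) * Nat.card U := by
      rw [← hcard, ← hφφ, Finset.mul_sum, Finset.mul_sum]
      refine Finset.sum_congr rfl fun g _ => ?_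
      rw [map_mul, Complex.conj_natCast]; ring
    have h2 : ∑ g, ((M.relIndex U : ℂ) * φ g) * conj ((M.relIndex U : ℂ) * φ g) =
        ∑ χ ∈ fs, ∑ χ' ∈ fs, (e χ : ℂ) * e χ' * (m χ χ' * Nat.card U) := by
      have h3 : ∀ g, ((M.relIndex U : ℂ) * φ g) * conj ((M.relIndex U : ℂ) * φ g) =
          ∑ χ ∈ fs, ∑ χ' ∈ fs, (e χ : ℂ) * e χ' * (F χ g * conj (F χ' g)) := by
        intro g
        rw [hdecF, map_sum, Finset.sum_mul_sum]
        refine Finset.sum_congr rfl fun χ _ => Finset.sum_congr rfl fun χ' _ => ?_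
        rw [map_mul, Complex.conj_natCast]; ring
      rw [Finset.sum_congr rfl (fun g _ => h3 g), Finset.sum_comm]
      refine Finset.sum_congr rfl fun χ hχ => ?_
      rw [Finset.sum_comm]
      refine Finset.sum_congr rfl fun χ' hχ' => ?_
      rw [← Finset.mul_sum, hm χ χ' hχ hχ']
    rw [h1] at h2
    have h4 : ((∑ χ ∈ fs, ∑ χ' ∈ fs, e χ * e χ' * m χ χ' : ℕ) : ℂ) * Nat.card U =
        (M.relIndex U : ℂ) * Nat.card U := by
      rw [h2]
      push_cast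
      rw [Finset.sum_mul]
      refine Finset.sum_congr rfl fun χ _ => ?_
      rw [Finset.sum_mul]
      exact Finset.sum_congr rfl fun χ' _ => by ring
    exact_mod_cast mul_right_cancel₀ hU0 h4
  have hge : ∀ χ ∈ fs, e χ * e χ ≤ ∑ χ' ∈ fs, e χ * e χ' * m χ χ' := by
    intro χ hχ
    refine le_trans ?_ (Finset.single_le_sum (f := fun χ' => e χ * e χ' * m χ χ')
      (fun _ _ => Nat.zero_le _) hχ)
    exact Nat.le_mul_of_pos_right _ (hmpos χ hχ)
  have heq : ∀ χ ∈ fs, e χ * e χ = ∑ χ' ∈ fs, e χ * e χ' * m χ χ' :=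
    (Finset.sum_eq_sum_iff_of_le hge).1 hkey.symm
  have hm1 : ∀ χ ∈ fs, m χ χ = 1 := by
    intro χ hχ
    have h1 := Finset.single_le_sum (f := fun χ' => e χ * e χ' * m χ χ')
      (fun _ _ => Nat.zero_le _) hχ
    rw [← heq χ hχ] at h1
    have h2 : 0 < e χ * e χ := Nat.mul_pos (he χ hχ).1 (he χ hχ).1
    have h3 : e χ * e χ * m χ χ ≤ e χ * e χ * 1 := by rw [mul_one]; exact h1
    have h4 := Nat.le_of_mul_le_mul_left h3 h2
    have h5 := hmpos χ hχ
    omega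
  have hm0 : ∀ χ ∈ fs, ∀ χ' ∈ fs, χ ≠ χ' → m χ χ' = 0 := by
    intro χ hχ χ' hχ' hne
    have h1 : ∑ y ∈ ({χ, χ'} : Finset (Γ → ℂ)), e χ * e y * m χ y ≤
        ∑ y ∈ fs, e χ * e y * m χ y := by
      refine Finset.sum_le_sum_of_subset ?_
      intro y hy
      rcases Finset.mem_insert.1 hy with rfl | hy
      · exact hχ
      · rw [Finset.mem_singleton.1 hy]; exact hχ'
    rw [Finset.sum_pair hne, ← heq χ hχ, hm1 χ hχ, mul_one] at h1
    have h2 : e χ * e χ' * m χ χ' = 0 := by omega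
    have h3 : 0 < e χ * e χ' := Nat.mul_pos (he χ hχ).1 (he χ' hχ').1
    rcases mul_eq_zero.1 h2 with h4 | h4
    · omega
    · exact h4
  have hFI : ∀ χ ∈ fs, F χ ∈ IrrS U := by
    intro χ hχ
    refine FI.Lib.lS10 Γ U (F χ) (hF0 χ hχ) (hFch χ hχ) ?_
    rw [hm χ χ hχ hχ, hm1 χ hχ, Nat.cast_one, one_mul]
  have hFinj : ∀ χ ∈ fs, ∀ χ' ∈ fs, F χ = F χ' → χ = χ' := by
    intro χ hχ χ' hχ' h
    by_contra hne
    have h1 := hm χ χ' hχ hχ'
    rw [hm0 χ hχ χ' hχ' hne, ← h, hm χ χ hχ hχ, hm1 χ hχ] at h1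
    simp at h1
  have hFov : ∀ χ ∈ fs, Over (F χ) φ := by
    intro χ hχ
    have h1 : ∑ g, F χ g * conj (φ g) = e χ * (Nat.card M : ℂ) := by
      rw [← hφφ, Finset.mul_sum]
      refine Finset.sum_congr rfl fun g _ => ?_
      by_cases hg : g ∈ M
      · change χ g * τ g * conj (φ g) = e χ * (ψ g * τ g * conj (φ g))
        rw [(he χ hχ).2 g hg]; ring
      · rw [hφ0 g hg, map_zero, mul_zero, mul_zero, mul_zero]
    intro h2
    rw [h2] at h1
    have h3 : (e χ : ℂ) ≠ 0 := by exact_mod_cast (he χ hχ).1.ne'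
    exact (mul_ne_zero h3 hM0) h1.symm
  have hset : Ab U φ = ((fs.image F : Finset (Γ → ℂ)) : Set (Γ → ℂ)) := by
    ext η
    rw [Finset.mem_coe, Finset.mem_image]
    constructor
    · rintro ⟨hη, hov⟩
      by_contra hno
      push Not at hno
      have h1 : (M.relIndex U : ℂ) * ∑ g, φ g * conj (η g) = 0 := by
        have h2 : ∀ g, (M.relIndex U : ℂ) * (φ g * conj (η g)) =
            ∑ χ ∈ fs, (e χ : ℂ) * (F χ g * conj (η g)) := by
          intro g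
          rw [← mul_assoc, hdecF, Finset.sum_mul]
          exact Finset.sum_congr rfl fun χ _ => by ring
        rw [Finset.mul_sum, Finset.sum_congr rfl (fun g _ => h2 g), Finset.sum_comm]
        refine Finset.sum_eq_zero fun χ hχ => ?_
        rw [← Finset.mul_sum, FI.Lib.lS2 Γ U (F χ) η (hFI χ hχ) hη, if_neg (hno χ hχ), mul_zero]
      have h3 : (M.relIndex U : ℂ) ≠ 0 := by
        intro h4
        rw [h4, zero_mul] at hcard
        exact hU0 hcard.symm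
      have h4 := (mul_eq_zero.1 h1).resolve_left h3
      apply hov
      have h5 := conj_sum_comm η φ
      rw [h4, map_zero] at h5
      exact h5
    · rintro ⟨χ, hχ, rfl⟩
      exact ⟨hFI χ hχ, hFov χ hχ⟩
  have hset2 : Ab U ψ = (fs : Set (Γ → ℂ)) := by
    ext χ
    rw [Finset.mem_coe, hmem]
  rw [kk, kk, hset, hset2, Set.ncard_coe_finset, Set.ncard_coe_finset,
    Finset.card_image_of_injOn (fun χ hχ χ' hχ' h => hFinj χ hχ χ' hχ' h)]

end FI
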