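import Pool.Agent.H6.FC.Targets

/-!
# MP_7500ea_al, board cfp_modules: row PSI
-/

open scoped Classical ComplexConjugate

namespace FI

open AMc AMt

theorem pf_PSI : T_PSI := by
  intro q _
  let f : Matrix.SpecialLinearGroup (Fin 2) (ZMod q) →* PS q :=
    ((QuotientGroup.mk' (Subgroup.center (Matrix.GeneralLinearGroup (Fin 2) (ZMod q)))).comp
      Matrix.SpecialLinearGroup.toGL).codRestrict (PS q)
      (fun A => ⟨Matrix.SpecialLinearGroup.toGL A, ⟨A, rfl⟩, rfl⟩)
  have hf : ∀ A, ((f A : PS q) : PG q) = QuotientGroup.mk (Matrix.SpecialLinearGroup.toGL A) :=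
    fun A => rfl
  have hsur : Function.Surjective f := by
    rintro ⟨x, y, ⟨A, rfl⟩, rfl⟩
    exact ⟨A, Subtype.ext rfl⟩
  have hker : f.ker = Subgroup.center (Matrix.SpecialLinearGroup (Fin 2) (ZMod q)) := by
    ext A
    rw [MonoidHom.mem_ker, ← Matrix.SpecialLinearGroup.toGL_mem_center_iff,
      ← QuotientGroup.eq_one_iff]
    constructor
    · intro h
      have := congrArg Subtype.val h
      exact this
    · intro h
      exact Subtype.ext h
  refine ⟨(QuotientGroup.quotientMulEquivOfEq hker.symm).trans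
    (QuotientGroup.quotientKerEquivOfSurjective f hsur), fun A => rfl⟩

end FI
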